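import Pool.Agent.H77.KG.Targets

/-!
# kgr_modules, FRD: the quotient by a finite radical (helper50)
-/

set_option autoImplicit false

namespace Pool.Agent.H50.KGR

open Set Pool.Agent.H77.BC Pool.Agent.H77.BD Pool.Agent.H77.KG Pool.Agent.H77.BCP

/-- the center of a simple nonabelian group is trivial -/
theorem frd_center {L : Type} [Group L] (hs : IsSimpleGroup L) (hn : ∃ a b : L, a * b ≠ b * a)
    (z : L) (hz : ∀ a, a * z = z * a) : z = 1 := by
  have h1 : z ∈ Subgroup.center L := Subgroup.mem_center_iff.2 hz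
  rcases hs.eq_bot_or_eq_top_of_normal (Subgroup.center L) inferInstance with h | h
  · rw [h] at h1
    exact Subgroup.mem_bot.1 h1
  · exfalso
    obtain ⟨a, b, hab⟩ := hn
    apply hab
    have h2 : b ∈ Subgroup.center L := by
      rw [h]
      exact Subgroup.mem_top b
    exact Subgroup.mem_center_iff.1 h2 a

/-- the relation of the orbits of a subgroup -/
def frdE {G S : Type} [Group G] [MulAction G S] (R : Subgroup G) : Setoid S where
  r x y := ∃ r ∈ R, y = r • x
  iseqv :=
    { refl := fun x => ⟨1, R.one_mem, (one_smul _ _).symm⟩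
      symm := by
        rintro x y ⟨r, hr, rfl⟩
        exact ⟨r⁻¹, R.inv_mem hr, (inv_smul_smul _ _).symm⟩
      trans := by
        rintro x y z ⟨r, hr, rfl⟩ ⟨s, hs, rfl⟩
        exact ⟨s * r, R.mul_mem hs hr, (mul_smul _ _ _).symm⟩ }

/-- isomorphism of the images of two surjective homomorphisms with the same kernel -/
theorem frd_iso {G G' L : Type} [Group G] [Group G'] [Group L] (p : G →* G') (π : G →* L)
    (hp : Function.Surjective p) (hπ : Function.Surjective π) (hk : p.ker = π.ker) :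
    ∃ j : G' ≃* L, ∀ g, j (p g) = π g := by
  refine ⟨(QuotientGroup.quotientKerEquivOfSurjective p hp).symm.trans
    ((QuotientGroup.quotientMulEquivOfEq hk).trans
      (QuotientGroup.quotientKerEquivOfSurjective π hπ)), fun g => ?_⟩
  have h1 : (QuotientGroup.quotientKerEquivOfSurjective p hp).symm (p g) =
      QuotientGroup.mk g := by
    rw [MulEquiv.symm_apply_eq]
    rfl
  rw [MulEquiv.trans_apply, MulEquiv.trans_apply, h1]
  rfl

theorem pf_FRD (hQMN : T_QMN) (hCCE : T_CCE) (hFCO : T_FCO) (hFCJ : T_FCJ) (hEXA : T_EXA)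
    (hEXB : T_EXB) (hHMI : T_HMI) (_hORB : T_ORB) : T_FRD := by
  intro P hP C hC M U hU G S I L _ _ _ _ _ _ _ _ iL π hG htr hF hPL hπ hfin
  rcases isEmpty_or_nonempty S with hE | ⟨⟨x0⟩⟩
  · have hsub : ∀ a b : G, a = b := fun a b =>
      hF.eq_of_smul_eq_smul (α := S) (fun s => (hE.false s).elim)
    have hinj : Function.Injective π := fun a b _ => hsub a b
    have hext : Ext U U id := by
      refine ⟨Function.injective_id, fun ι _ A => ?_, fun ι _ A hA hne => ?_⟩
      · have e1 : (fun x : ι → M => id ∘ x) '' A = A := by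
          ext x
          exact ⟨fun ⟨y, hy, h⟩ => by rw [← h]; exact hy, fun hx => ⟨x, hx, rfl⟩⟩
        rw [e1]
      · have e1 : (fun x : ι → M => id ∘ x) '' A = A := by
          ext x
          exact ⟨fun ⟨y, hy, h⟩ => by rw [← h]; exact hy, fun hx => ⟨x, hx, rfl⟩⟩
        rw [e1]
    refine ⟨M, U, id, hext, G, S, inferInstance, inferInstance, inferInstance, inferInstance,
      MonoidHom.id G, id, MulEquiv.ofBijective π ⟨hinj, hπ⟩, hU, inferInstance, inferInstance,
      inferInstance, hF, htr, ⟨Function.surjective_id, Function.surjective_id, ?_, ?_, ?_⟩,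
      fun g => rfl, fun x => (hE.false x).elim, rfl, rfl⟩
    · exact DFn_id (U := U) (α := G)
    · exact DFn_id (U := U) (α := S)
    · exact fun g x => (hE.false x).elim
  have hR0 : U.D (π.ker : Set G) := D_finite hfin
  have hED : U.D {z : S × S | (frdE (S := S) π.ker).r z.1 z.2} := by
    refine D_exists (p := fun (z : S × S) (r : G) => r ∈ π.ker ∧ z.2 = r • z.1) ?_
    refine D_and (D_subst (p := fun r : G => r ∈ π.ker) hR0 DFn_snd) ?_
    exact D_eqf (DFn_comp DFn_snd DFn_fst) (DFn_act DFn_snd (DFn_comp DFn_fst DFn_fst))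
  have hEinv : ∀ (g : G) (x y : S), (frdE (S := S) π.ker).r x y →
      (frdE (S := S) π.ker).r (g • x) (g • y) := by
    rintro g x y ⟨r, hr, rfl⟩
    refine ⟨g * r * g⁻¹, (MonoidHom.normal_ker π).conj_mem r hr g, ?_⟩
    rw [← mul_smul, ← mul_smul, inv_mul_cancel_right]
  obtain ⟨M', U', e, h, G', S', iG, iA, cG, cS, p, q, hCU, hDG, hFS, hDA, hFa, hQ, hqE⟩ :=
    hQMN C hC U hU (frdE (S := S) π.ker) hED hEinv
  have hqE' : ∀ x y, q x = q y ↔ ∃ r ∈ π.ker, y = r • x := hqE
  letI cGe : Cod M' G := codE h.inj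
  letI cSe : Cod M' S := codE h.inj
  have sG : Same U U' G := (hEXA U U' e h (α := G) (β := G) (γ := G)).1
  have sS : Same U U' S := (hEXA U U' e h (α := S) (β := S) (γ := S)).1
  obtain ⟨x1, -, x3, -, -⟩ := hEXB U U' e h
  have hDGe : DG U' G := x3
  have hFSe : Ful U' S := x1
  obtain ⟨hsp, hsq, hdp, hdq, heqv⟩ := hQ
  -- the kernel
  have hK' : U'.D (p.ker : Set G) := by
    have h1 : U'.D {g : G | p g = 1} := D_eqf hdp (DFn_const _)
    exact h1
  have hK : U.D (p.ker : Set G) := (sG.D _).1 hK'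
  have horb : ∀ (x : S), {y : S | ∃ g ∈ p.ker, y = g • x}.Finite := by
    intro x
    refine (hfin.image (fun r => r • x)).subset ?_
    rintro _ ⟨g, hg, rfl⟩
    have h1 : q (g • x) = q x := by
      rw [heqv, MonoidHom.mem_ker.1 hg, one_smul]
    obtain ⟨r, hr, hr'⟩ := (hqE' x (g • x)).1 h1.symm
    exact ⟨r, hr, hr'.symm⟩
  obtain ⟨c1, c2, -, c4, -, -⟩ := hCCE U p.ker hK
  have hbot : cc U p.ker = ⊥ := by
    rw [eq_bot_iff]
    intro g hg
    rw [Subgroup.mem_bot]
    apply hF.eq_of_smul_eq_smul (α := S)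
    intro s
    rw [one_smul]
    refine hFCO U (cc U p.ker) s c1 ((horb s).subset ?_) g hg
    rintro _ ⟨k, hk, rfl⟩
    exact ⟨k, c2 hk, rfl⟩
  have hKf : (p.ker : Set G).Finite := by
    rw [hbot, Subgroup.relIndex_bot_left] at c4
    have h1 : Finite p.ker := Nat.finite_of_card_ne_zero c4
    exact Set.toFinite _
  have hcen : ∀ k ∈ p.ker, ∀ g : G, g * k = k * g := by
    intro k hk g
    refine hFCJ U ⊤ k hG (hKf.subset ?_) g (Subgroup.mem_top g)
    rintro _ ⟨g, -, rfl⟩
    exact (MonoidHom.normal_ker p).conj_mem k hk g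
  have hker : p.ker = π.ker := by
    apply le_antisymm
    · intro k hk
      rw [MonoidHom.mem_ker]
      funext i
      classical
      refine frd_center (hP.simple _ _ (hPL i)) (hP.noncomm _ _ (hPL i)) _ ?_
      intro a
      obtain ⟨g, hg⟩ := hπ (Pi.mulSingle i a)
      have h1 := congrArg (fun x => π x i) (hcen k hk g)
      simp only [map_mul, Pi.mul_apply, hg, Pi.mulSingle_eq_same] at h1
      exact h1
    · intro r hr
      rw [MonoidHom.mem_ker]
      apply hFa.eq_of_smul_eq_smul (α := S')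
      intro y
      obtain ⟨x, rfl⟩ := hsq y
      rw [one_smul, ← heqv]
      exact ((hqE' x (r • x)).2 ⟨r, hr, rfl⟩).symm
  obtain ⟨j, hj⟩ := frd_iso p π hsp hπ hker
  refine ⟨M', U', e, h, G', S', iG, iA, cG, cS, p, q, j, hCU, hDG, hFS, hDA, hFa, ?_,
    ⟨hsp, hsq, hdp, hdq, heqv⟩, hj, hqE', ?_, ?_⟩
  · refine ⟨fun x y => ?_⟩
    obtain ⟨x, rfl⟩ := hsq x
    obtain ⟨y, rfl⟩ := hsq y
    obtain ⟨g, rfl⟩ := htr.exists_smul_eq x y
    exact ⟨p g, (heqv g x).symm⟩
  · have h1 := ((hHMI U' p hdp).1 ⊤ (by rw [Subgroup.coe_top]; exact Ful.full)).2.1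
    have h2 : (⊤ : Subgroup G).map p = ⊤ := by
      rw [← MonoidHom.range_eq_map]
      exact MonoidHom.range_eq_top.2 hsp
    rw [h2, top_inf_eq, Subgroup.coe_top, Subgroup.coe_top] at h1
    have h3 : U'.R (p.ker : Set G) = 0 := ((a_RKA U').fin hK' ⟨1, p.ker.one_mem⟩).2 hKf
    rw [h3, add_zero] at h1
    rw [← h1]
    exact sG.R _ Ful.full ⟨1, mem_univ _⟩
  · · have h1 := (a_RKB U').fib_eq (X := (univ : Set S)) (f := q) (n := 0) Ful.full hdq
        ⟨x0, mem_univ _⟩ (by
          rintro _ ⟨x, -, rfl⟩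
          have h2 : U'.D {a : S | a ∈ univ ∧ q a = q x} := by
            have h3 : U'.D {a : S | q a = q x} := D_eqf hdq (DFn_const _)
            have h4 : {a : S | a ∈ univ ∧ q a = q x} = {a : S | q a = q x} := by
              ext a
              exact ⟨fun h => h.2, fun h => ⟨mem_univ _, h⟩⟩
            rw [h4]
            exact h3
          refine ((a_RKA U').fin h2 ⟨x, mem_univ _, rfl⟩).2 ?_
          refine (hfin.image (fun r => r • x)).subset ?_
          rintro a ⟨-, ha⟩
          obtain ⟨r, hr, hr'⟩ := (hqE' x a).1 ha.symm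
          exact ⟨r, hr, hr'.symm⟩)
      rw [add_zero, image_univ, hsq.range_eq] at h1
      rw [← h1]
      exact sS.R _ Ful.full ⟨x0, mem_univ _⟩

end Pool.Agent.H50.KGR
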