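import Pool.Agent.H77.KG.Targets

/-!
# kgr_modules, REG: a transitive connected abelian normal subgroup (helper50)
-/

set_option autoImplicit false

namespace Pool.Agent.H50.KGR

open Set Pool.Agent.H77.BC Pool.Agent.H77.BD Pool.Agent.H77.KG Pool.Agent.H77.BCP

/-- the additive notation for a commutative subgroup -/
@[reducible] def regAdd {G : Type} [Group G] (A : Subgroup G)
    (hc : ∀ a ∈ A, ∀ b ∈ A, a * b = b * a) : AddCommGroup {a : G // a ∈ A} where
  add a b := ⟨a.1 * b.1, A.mul_mem a.2 b.2⟩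
  add_assoc a b c := Subtype.ext (mul_assoc a.1 b.1 c.1)
  zero := ⟨1, A.one_mem⟩
  zero_add a := Subtype.ext (one_mul a.1)
  add_zero a := Subtype.ext (mul_one a.1)
  nsmul := @nsmulRec _ ⟨⟨1, A.one_mem⟩⟩ ⟨fun a b => ⟨a.1 * b.1, A.mul_mem a.2 b.2⟩⟩
  neg a := ⟨a.1⁻¹, A.inv_mem a.2⟩
  zsmul := @zsmulRec _ ⟨⟨1, A.one_mem⟩⟩ ⟨fun a b => ⟨a.1 * b.1, A.mul_mem a.2 b.2⟩⟩
    ⟨fun a => ⟨a.1⁻¹, A.inv_mem a.2⟩⟩
    (@nsmulRec _ ⟨⟨1, A.one_mem⟩⟩ ⟨fun a b => ⟨a.1 * b.1, A.mul_mem a.2 b.2⟩⟩)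
  neg_add_cancel a := Subtype.ext (inv_mul_cancel a.1)
  add_comm a b := Subtype.ext (hc a.1 a.2 b.1 b.2)

/-- the action by conjugation -/
@[reducible] def regAct {G : Type} [Group G] (A H : Subgroup G)
    (hc : ∀ a ∈ A, ∀ b ∈ A, a * b = b * a) (hn : A.Normal) :
    @DistribMulAction H {a : G // a ∈ A} _ (regAdd A hc).toAddMonoid :=
  letI := regAdd A hc
  { smul := fun h a => ⟨h.1 * a.1 * h.1⁻¹, hn.conj_mem a.1 a.2 h.1⟩
    one_smul := fun a => Subtype.ext (by
      change (1 : G) * a.1 * (1 : G)⁻¹ = a.1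
      rw [one_mul, inv_one, mul_one])
    mul_smul := fun g h a => Subtype.ext (by
      change (g.1 * h.1) * a.1 * (g.1 * h.1)⁻¹ = g.1 * (h.1 * a.1 * h.1⁻¹) * g.1⁻¹
      group)
    smul_zero := fun g => Subtype.ext (by
      change g.1 * 1 * g.1⁻¹ = 1
      rw [mul_one, mul_inv_cancel])
    smul_add := fun g a b => Subtype.ext (by
      change g.1 * (a.1 * b.1) * g.1⁻¹ = (g.1 * a.1 * g.1⁻¹) * (g.1 * b.1 * g.1⁻¹)
      group) }

theorem pf_REG (hHMI : T_HMI) (_hCCE : T_CCE) (_hSBM : T_SBM) : T_REG := by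
  intro M U G S _ _ _ _ _ _ _ hG hF A hn hA hc htr x
  classical
  -- regularity
  have hreg : ∀ a ∈ A, ∀ y : S, a • y = y → a = 1 := by
    intro a ha y hy
    apply hF.eq_of_smul_eq_smul (α := S)
    intro z
    obtain ⟨b, hb, rfl⟩ := htr y z
    rw [one_smul, ← mul_smul, hc a ha b hb, mul_smul, hy]
  have huniq : ∀ a ∈ A, ∀ b ∈ A, ∀ y : S, a • y = b • y → a = b := by
    intro a ha b hb y hy
    have h1 := hreg (b⁻¹ * a) (A.mul_mem (A.inv_mem hb) ha) y
      (by rw [mul_smul, hy, inv_smul_smul])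
    exact (inv_mul_eq_one.1 h1).symm
  have hex : ∀ g : G, ∃ a, a ∈ A ∧ a • x = g • x := by
    intro g
    obtain ⟨a, ha, h⟩ := htr x (g • x)
    exact ⟨a, ha, h⟩
  choose α hα hα' using hex
  let H : Subgroup G := MulAction.stabilizer G x
  have hH : U.D (H : Set G) := D_stab x
  have hmem : ∀ g, (α g)⁻¹ * g ∈ H := by
    intro g
    change ((α g)⁻¹ * g) • x = x
    rw [mul_smul, ← hα' g, inv_smul_smul]
  have hkey : ∀ g a h : G, a ∈ A → h ∈ H → g = a * h → α g = a := by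
    intro g a h ha hh e
    have hh' : h • x = x := hh
    refine huniq _ (hα g) a ha x ?_
    rw [hα' g, e, mul_smul, hh']
  let p : G →* H :=
    { toFun := fun g => ⟨(α g)⁻¹ * g, hmem g⟩
      map_one' := by
        refine Subtype.ext ?_
        change (α 1)⁻¹ * 1 = 1
        rw [hkey 1 1 1 A.one_mem H.one_mem (one_mul 1).symm, inv_one, one_mul]
      map_mul' := by
        intro g h
        refine Subtype.ext ?_
        change (α (g * h))⁻¹ * (g * h) = ((α g)⁻¹ * g) * ((α h)⁻¹ * h)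
        have e1 : α (g * h) = α g * (((α g)⁻¹ * g) * α h * ((α g)⁻¹ * g)⁻¹) := by
          refine hkey _ _ (((α g)⁻¹ * g) * ((α h)⁻¹ * h)) (A.mul_mem (hα g)
            (hn.conj_mem _ (hα h) _)) (H.mul_mem (hmem g) (hmem h)) ?_
          group
        rw [e1]
        group }
  have hp : ∀ g, ((p g : H) : G) = (α g)⁻¹ * g := fun g => rfl
  have hpD : DFn U (fun g => p g) := by
    refine DFn_smk (p := fun g => g ∈ H) hH ?_
    have h1 : U.D {z : G × G | z.1 * z.2⁻¹ ∈ A ∧ z.2 ∈ H} :=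
      D_and (D_subst (p := fun g : G => g ∈ A) hA.1 (DFn_gmul DFn_fst (DFn_ginv DFn_snd)))
        (D_subst (p := fun g : G => g ∈ H) hH DFn_snd)
    have h2 : {z : G × G | z.2 = ((p z.1 : H) : G)} =
        {z : G × G | z.1 * z.2⁻¹ ∈ A ∧ z.2 ∈ H} := by
      ext ⟨g, k⟩
      constructor
      · intro h
        have h3 : k = (α g)⁻¹ * g := h
        refine ⟨?_, ?_⟩
        · change g * k⁻¹ ∈ A
          rw [h3]
          have : g * ((α g)⁻¹ * g)⁻¹ = α g := by group
          rw [this]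
          exact hα g
        · change k ∈ H
          rw [h3]
          exact hmem g
      · rintro ⟨h3, h4⟩
        change k = (α g)⁻¹ * g
        have h5 := hkey g (g * k⁻¹) k h3 h4 (inv_mul_cancel_right g k).symm
        rw [h5]
        group
    unfold DFn
    rw [h2]
    exact h1
  have hps : Function.Surjective p := by
    rintro ⟨k, hk⟩
    refine ⟨k, Subtype.ext ?_⟩
    change (α k)⁻¹ * k = k
    rw [hkey k 1 k A.one_mem hk (one_mul k).symm, inv_one, one_mul]
  have hDG : DG U H := dgSub H hH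
  have hval : DFn U (fun h : {h : G // h ∈ H} => h.1) := DFn_sval' hH
  have hfH : Ful U {h : G // h ∈ H} := ful_sub hH
  have hfA : Ful U {a : G // a ∈ A} := ful_sub hA.1
  have hvalA : DFn U (fun a : {a : G // a ∈ A} => a.1) := DFn_sval' hA.1
  have hconn : Conn U (⊤ : Subgroup H) := by
    have h1 := ((hHMI U p hpD).1 ⊤ hG.1).2.2 hG
    have h2 : (⊤ : Subgroup G).map p = ⊤ := by
      rw [← MonoidHom.range_eq_map]
      exact MonoidHom.range_eq_top.2 hps
    rw [h2] at h1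
    exact h1
  refine ⟨{a : G // a ∈ A}, regAdd A hc, regAct A H hc hn, inferInstance, fun a => a.1 • x, p,
    hDG, ?_, hconn, ?_, ?_, ?_, ?_, ?_, ?_, hps⟩
  · refine ⟨?_⟩
    exact DFn_act (f := fun z : {h : G // h ∈ H} × S => z.1.1) (s := fun z => z.2)
      (DFn_comp (g := fun h : {h : G // h ∈ H} => h.1) hval DFn_fst) DFn_snd
  · refine @DAb.mk M U _ (regAdd A hc) _ hfA ?_
    refine DFn_smk (p := fun g => g ∈ A) hA.1 ?_
    exact DFn_gmul (f := fun z : {a : G // a ∈ A} × {a : G // a ∈ A} => z.1.1)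
      (g := fun z => z.2.1)
      (DFn_comp (g := fun h : {a : G // a ∈ A} => h.1) hvalA DFn_fst)
      (DFn_comp (g := fun h : {a : G // a ∈ A} => h.1) hvalA DFn_snd)
  · refine @DA.mk M U H {a : G // a ∈ A} _
      (@DistribMulAction.toMulAction _ _ _ _ (regAct A H hc hn)) _ _ ?_
    refine DFn_smk (p := fun g => g ∈ A) hA.1 ?_
    have h1 : DFn U (fun z : {h : G // h ∈ H} × {a : G // a ∈ A} => z.1.1) :=
      DFn_comp (g := fun h : {h : G // h ∈ H} => h.1) hval DFn_fst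
    have h2 : DFn U (fun z : {h : G // h ∈ H} × {a : G // a ∈ A} => z.2.1) :=
      DFn_comp (g := fun h : {a : G // a ∈ A} => h.1) hvalA DFn_snd
    exact DFn_gmul (DFn_gmul h1 h2) (DFn_ginv h1)
  · letI := regAdd A hc
    refine ⟨?_, ?_⟩
    · rw [AddSubgroup.coe_top]
      exact hfA.full
    · intro B _ hB hr
      let B' : Subgroup G :=
        { carrier := Subtype.val '' (B : Set {a : G // a ∈ A})
          one_mem' := ⟨0, B.zero_mem, rfl⟩
          mul_mem' := by
            rintro _ _ ⟨a, ha, rfl⟩ ⟨b, hb, rfl⟩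
            exact ⟨a + b, B.add_mem ha hb, rfl⟩
          inv_mem' := by
            rintro _ ⟨a, ha, rfl⟩
            exact ⟨-a, B.neg_mem ha, rfl⟩ }
      have h1 : U.D (B' : Set G) := (D_sub _).1 hB
      have h2 : U.R (B' : Set G) = U.R (B : Set {a : G // a ∈ A}) := (R_sub _).symm
      have h3 : U.R ((⊤ : AddSubgroup {a : G // a ∈ A}) : Set {a : G // a ∈ A}) =
          U.R (A : Set G) := by
        rw [AddSubgroup.coe_top]
        exact R_sub_univ
      have h4 : B' ≤ A := by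
        rintro _ ⟨a, -, rfl⟩
        exact a.2
      have h5 := hA.2 B' h4 h1 (by rw [h2, ← h3]; exact hr)
      rw [eq_top_iff]
      rintro ⟨a, ha⟩ -
      rw [← h5] at ha
      obtain ⟨b, hb, hb'⟩ := ha
      have h6 : b = ⟨a, by rw [← h5]; exact ⟨b, hb, hb'⟩⟩ := Subtype.ext hb'
      rw [← h6]
      exact hb
  · constructor
    · intro a b hab
      exact Subtype.ext (huniq a.1 a.2 b.1 b.2 x hab)
    · intro y
      obtain ⟨a, ha, h⟩ := htr x y
      exact ⟨⟨a, ha⟩, h⟩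
  · exact DFn_act hvalA (DFn_const x)
  · rintro ⟨h, hh⟩ a
    have hh' : h • x = x := hh
    have hh'' : h⁻¹ • x = x := by
      rw [inv_smul_eq_iff, hh']
    change (h * a.1 * h⁻¹) • x = h • a.1 • x
    rw [mul_smul, mul_smul, hh'']

end Pool.Agent.H50.KGR
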