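import Pool.Agent.H77.KG.Targets

/-!
# kgr_modules, SSR: actions of semisimple groups (helper50)
-/

set_option autoImplicit false

namespace Pool.Agent.H50.KGR

open Set Pool.Agent.H77.BC Pool.Agent.H77.BD Pool.Agent.H77.KG Pool.Agent.H77.BCP

theorem ssr_center {L : Type} [Group L] (hs : IsSimpleGroup L) (hn : ∃ a b : L, a * b ≠ b * a)
    (z : L) (hz : ∀ a, a * z = z * a) : z = 1 := by
  have h1 : z ∈ Subgroup.center L := Subgroup.mem_center_iff.2 hz
  rcases hs.eq_bot_or_eq_top_of_normal (Subgroup.center L) inferInstance with h | h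
  · rw [h] at h1
    exact Subgroup.mem_bot.1 h1
  · exfalso
    obtain ⟨a, b, hab⟩ := hn
    apply hab
    have h2 : b ∈ Subgroup.center L := by
      rw [h]
      exact Subgroup.mem_top b
    exact Subgroup.mem_center_iff.1 h2 a

section

variable {G I : Type} {L : I → Type} [Group G] [∀ i, Group (L i)] (e : G ≃* ∀ i, L i)

theorem ssr_iso (i : I) : Nonempty (L i ≃* Nj e {i}) := by
  classical
  refine ⟨MulEquiv.symm (MulEquiv.ofBijective
    ({ toFun := fun g => e g.1 i
       map_one' := by rw [Subgroup.coe_one, map_one]; rfl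
       map_mul' := fun g h => by rw [Subgroup.coe_mul, map_mul]; rfl } : Nj e {i} →* L i) ?_)⟩
  constructor
  · rintro ⟨g, hg⟩ ⟨h, hh⟩ hgh
    refine Subtype.ext (e.injective (funext fun k => ?_))
    rcases eq_or_ne k i with rfl | hk
    · exact hgh
    · change e g k = e h k
      rw [hg k (by simpa using hk), hh k (by simpa using hk)]
  · intro a
    refine ⟨⟨e.symm (Pi.mulSingle i a), fun k hk => ?_⟩, ?_⟩
    · rw [MulEquiv.apply_symm_apply]
      exact Pi.mulSingle_eq_of_ne (by simpa using hk) a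
    · change e (e.symm (Pi.mulSingle i a)) i = a
      rw [MulEquiv.apply_symm_apply, Pi.mulSingle_eq_same]

theorem ssr_normal (J : Set I) : (Nj e J).Normal := by
  refine ⟨fun n hn g i hi => ?_⟩
  rw [map_mul, map_mul, map_inv, Pi.mul_apply, Pi.mul_apply, Pi.inv_apply, hn i hi, mul_one,
    mul_inv_cancel]

include e in
theorem ssr_one (i : I) (hi : ∀ k, k = i) : Nonempty (G ≃* L i) := by
  refine ⟨MulEquiv.ofBijective
    ({ toFun := fun g => e g i
       map_one' := by rw [map_one]; rfl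
       map_mul' := fun g h => by rw [map_mul]; rfl } : G →* L i) ?_⟩
  constructor
  · intro g h hgh
    refine e.injective (funext fun k => ?_)
    obtain rfl := hi k
    exact hgh
  · intro a
    classical
    refine ⟨e.symm (Pi.mulSingle i a), ?_⟩
    change e (e.symm (Pi.mulSingle i a)) i = a
    rw [MulEquiv.apply_symm_apply, Pi.mulSingle_eq_same]

end

theorem pf_SSR (hPRD : T_PRD) (hRPR : T_RPR) (hPBD : T_PBD) (hARI : T_ARI) (hNAC : T_NAC)
    (_hSBM : T_SBM) (hORB : T_ORB) : T_SSR := by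
  intro P hP M U G S I L _ _ _ _ _ _ _ _ iL e hPL htr hF n hn h1n hnG
  classical
  have hfI : Fintype I := Fintype.ofFinite I
  have hsimple : ∀ i, IsSimpleGroup (L i) := fun i => hP.simple _ _ (hPL i)
  have hnc : ∀ i, ∃ a b : L i, a * b ≠ b * a := fun i => hP.noncomm _ _ (hPL i)
  have hcen : ∀ (i : I) (z : L i), (∀ a, a * z = z * a) → z = 1 :=
    fun i z hz => ssr_center (hsimple i) (hnc i) z hz
  have hD : ∀ J : Set I, U.D (Nj e J : Set G) := fun J => (hPRD U e hcen J).1
  obtain ⟨hsum, huniv⟩ := hRPR U e hcen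
  -- the bounds
  have hbd : ∀ i, ∃ c, Bd U (Nj e {i}) c := by
    intro i
    have h1 : DG U (Nj e {i}) := dgSub _ (hD {i})
    exact hP.bound _ _ (hP.iso _ _ _ _ (ssr_iso e i) (hPL i)) U
  choose c hc using hbd
  have hRu : ∀ i, U.R (univ : Set (Nj e {i})) = U.R (Nj e {i} : Set G) := by
    intro i
    exact R_sub_univ
  have hc1 : ∀ i, 1 ≤ c i := fun i => (hc i).1
  have hc2 : ∀ i, 2 * c i ≤ U.R (Nj e {i} : Set G) := by
    intro i
    rw [← hRu i]
    exact (hc i).2.1
  have hc3 : ∀ (i : I) (H : Subgroup G), H ≤ Nj e {i} → H ≠ Nj e {i} → U.D (H : Set G) →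
      U.R (H : Set G) + c i ≤ U.R (Nj e {i} : Set G) := by
    intro i H hH hne hHD
    have e1 : Subtype.val '' ((H.subgroupOf (Nj e {i}) : Subgroup (Nj e {i})) : Set (Nj e {i})) =
        (H : Set G) := by
      ext g
      constructor
      · rintro ⟨k, hk, rfl⟩
        exact hk
      · intro hg
        exact ⟨⟨g, hH hg⟩, hg, rfl⟩
    have h1 := (hc i).2.2.1 (H.subgroupOf (Nj e {i}))
      (by
        rw [D_sub, e1]
        exact hHD)
      (by
        intro h
        apply hne
        apply le_antisymm hH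
        intro g hg
        have h2 : (⟨g, hg⟩ : Nj e {i}) ∈ H.subgroupOf (Nj e {i}) := by
          rw [h]
          exact Subgroup.mem_top _
        exact h2)
    rw [R_sub, e1, hRu i] at h1
    exact h1
  have hconn : ∀ i, Conn U (Nj e {i}) := by
    intro i
    refine ⟨hD {i}, fun K hK hKD hr => ?_⟩
    by_contra hne
    have h1 := hc3 i K hK hne hKD
    have h2 := hc1 i
    omega
  -- `S` is not empty
  have hSne : Nonempty S := by
    by_contra hS
    rw [not_nonempty_iff] at hS
    have hsub : ∀ a b : G, a = b := fun a b =>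
      hF.eq_of_smul_eq_smul (α := S) (fun s => (hS.false s).elim)
    have hsub' : Subsingleton G := ⟨hsub⟩
    have h1 : U.R (univ : Set G) = 0 :=
      ((a_RKA U).fin Ful.full ⟨1, mem_univ _⟩).2 (Set.toFinite _)
    rw [h1] at hnG
    nlinarith
  obtain ⟨s0⟩ := hSne
  let St : Subgroup G := MulAction.stabilizer G s0
  have hSt : U.D (St : Set G) := D_stab s0
  have hG : U.R (univ : Set G) = n + U.R (St : Set G) := by
    have h1 := hORB U (⊤ : Subgroup G) s0 (by rw [Subgroup.coe_top]; exact Ful.full)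
    have h2 : {x : S | ∃ g ∈ (⊤ : Subgroup G), x = g • s0} = univ := by
      ext x
      refine ⟨fun _ => mem_univ _, fun _ => ?_⟩
      obtain ⟨g, hg⟩ := htr.exists_smul_eq s0 x
      exact ⟨g, Subgroup.mem_top g, hg.symm⟩
    rw [h2, top_inf_eq, Subgroup.coe_top, hn] at h1
    exact h1
  have hnle : ∀ i, ¬ Nj e {i} ≤ St := by
    intro i hi
    have h1 : ∀ g ∈ Nj e {i}, g = 1 := by
      intro g hg
      apply hF.eq_of_smul_eq_smul (α := S)
      intro s
      obtain ⟨k, rfl⟩ := htr.exists_smul_eq s0 s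
      have h2 : k⁻¹ * g * k ∈ Nj e {i} := by
        have h3 := (ssr_normal e {i}).conj_mem g hg k⁻¹
        rwa [inv_inv] at h3
      have h4 : (k⁻¹ * g * k) • s0 = s0 := hi h2
      rw [mul_smul, mul_smul, inv_smul_eq_iff] at h4
      rw [h4, one_smul]
    have h5 : (Nj e {i} : Set G).Finite := by
      refine (Set.finite_singleton (1 : G)).subset ?_
      intro g hg
      exact h1 g hg
    have h6 := ((a_RKA U).fin (hD {i}) ⟨1, (Nj e {i}).one_mem⟩).2 h5
    have h7 := hc2 i
    have h8 := hc1 i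
    omega
  have hGs : U.R (univ : Set G) = ∑ i, U.R (Nj e {i} : Set G) := by
    have h1 := hsum Finset.univ
    rw [Finset.coe_univ, huniv, Subgroup.coe_top] at h1
    exact h1
  have hcn : ∑ i, c i ≤ n := by
    have h1 := hPBD U e hsimple hnc c hc2 hc3 Finset.univ St hSt
      (by rw [Finset.coe_univ, huniv]; exact le_top) (fun i _ => hnle i)
    rw [Finset.coe_univ, huniv, Subgroup.coe_top, hG] at h1
    omega
  have hA := hARI c (fun i => U.R (Nj e {i} : Set G))
    (fun i m _ => ∃ (F : Type) (_ : Field F) (_ : IsAlgClosed F),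
      Nonempty (L i ≃* Matrix.ProjectiveSpecialLinearGroup (Fin (m + 2)) F)) n h1n hc1
    (by
      intro i
      rcases (hc i).2.2.2 with h | ⟨F, hF1, hF2, m, f, h1, h2, h3, ⟨h4⟩⟩
      · left
        rw [hRu i] at h
        exact h
      · right
        obtain ⟨φ⟩ := ssr_iso e i
        rw [hRu i] at h3
        exact ⟨m, f, ⟨F, hF1, hF2, ⟨φ.trans h4⟩⟩, h1, h2, h3⟩) hcn
    (by rw [← hGs]; exact hnG)
  rcases hA with ⟨i, hi, hci, hcase⟩ | ⟨h2, i, j, hij, hall, hQi, hQj, hci, hcj, hri, hrj⟩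
  · have hNi : Nj e {i} = ⊤ := by
      rw [eq_top_iff]
      intro g _ k hk
      exact (hk (hi k)).elim
    have hRi : U.R (univ : Set G) = U.R (Nj e {i} : Set G) := by
      rw [hNi, Subgroup.coe_top]
    have hcor : ∀ Y : Subgroup G, U.D (Y : Set G) → Y ≠ ⊤ →
        U.R (Y : Set G) + n ≤ U.R (univ : Set G) := by
      intro Y hY hne
      have h1 := hc3 i Y (by rw [hNi]; exact le_top) (by rw [hNi]; exact hne) hY
      rw [hci, ← hRi] at h1
      exact h1
    obtain ⟨ψ⟩ := ssr_one e i hi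
    rcases hcase with ⟨m, ⟨F, hF1, hF2, ⟨φ⟩⟩, hm, hr⟩ | ⟨⟨F, hF1, hF2, ⟨φ⟩⟩, hn2, hr⟩
    · left
      have hr' : U.R (univ : Set G) = n * (n + 2) := hRi.trans hr
      refine ⟨hr', hcor, F, hF1, hF2, ?_⟩
      have h1 := (hNAC U htr hF (F := F) (m + 2) (by omega) ⟨ψ.trans φ⟩ (by rw [hn]; exact h1n)
        (by rw [hn, hr'])).2
      rw [hn] at h1
      exact h1
    · right
      left
      refine ⟨hn2, hRi.trans hr, ?_, F, hF1, hF2, ⟨ψ.trans φ⟩⟩
      rw [hn2] at hcor
      exact hcor
  · right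
    right
    refine ⟨h2, ?_, i, j, hij, hall, hQi, hQj, hconn i, hconn j⟩
    rw [hGs]
    have h3 : (Finset.univ : Finset I) = {i, j} := by
      ext k
      simp only [Finset.mem_univ, Finset.mem_insert, Finset.mem_singleton, true_iff]
      exact hall k
    rw [h3, Finset.sum_pair hij, hri, hrj]

end Pool.Agent.H50.KGR
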